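import Pool.Agent.Helper29.MS.Base

/-!
# CR, leaf K2: the mean square of `L' / w` in a small window around one zero

`L' = G' / G = m / (w - iγ) + g' / g` near `iγ`; `|‖u + q‖² - ‖u‖²| ≤ √σ ‖u‖² + ‖q‖² / √σ + ‖q‖²`.
-/

set_option autoImplicit false

namespace Pool.Agent.Helper13.CR

open Complex Filter Topology MeasureTheory Set Metric
open Pool.Agent.Helper13.Bsd Pool.Agent.Helper7.GW Pool.Agent.Helper58.BSD Pool.Agent.Helper29.MS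

/-- the statement K2a -/
def PoissonWindow : Prop := ∀ (γ ε : ℝ), 0 < ε → ε < |γ| →
    Tendsto (fun σ : ℝ => σ * ∫ τ in Icc (γ - ε) (γ + ε),
      (‖(σ : ℂ) + (τ : ℂ) * I - (γ : ℂ) * I‖ ^ 2)⁻¹ * (‖(σ : ℂ) + (τ : ℂ) * I‖ ^ 2)⁻¹) (𝓝[>] 0)
      (𝓝 (Real.pi / γ ^ 2))

variable {v : ℝ → ℝ} {G : ℂ → ℂ} {A a η B c : ℝ} {k : ℕ}

theorem deriv_branch (hF : Frame v G A a η B c k) {L : ℂ → ℂ} (hL : Branch v G a L) {w : ℂ}
    (hw : 0 < w.re) : deriv L w = deriv G w / G w := by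
  have hopen : IsOpen {w : ℂ | 0 < w.re} := isOpen_lt continuous_const continuous_re
  have hat : DifferentiableAt ℂ L w := hL.diff.differentiableAt (hopen.mem_nhds hw)
  have h1 : HasDerivAt (fun w => cexp (L w)) (cexp (L w) * deriv L w) w := hat.hasDerivAt.cexp
  have h2 : (fun w => cexp (L w)) =ᶠ[𝓝 w] G := by
    filter_upwards [hopen.mem_nhds hw] with z hz using hL.exp z hz
  have h3 : HasDerivAt G (cexp (L w) * deriv L w) w := h1.congr_of_eventuallyEq h2.symm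
  rw [h3.deriv, hL.exp w hw]
  have h4 := hF.rh w hw
  field_simp

/-- near a zero `iγ` of order `m`, `L' = m / (w - iγ) + O(1)` -/
theorem deriv_near (hF : Frame v G A a η B c k) {L : ℂ → ℂ} (hL : Branch v G a L) (γ : ℝ) (m : ℕ)
    (g : ℂ → ℂ) (hg : AnalyticAt ℂ g (γ * I)) (hg0 : g (γ * I) ≠ 0)
    (hG : ∀ᶠ w in 𝓝 (γ * I : ℂ), G w = (w - γ * I) ^ m * g w) :
    ∃ r M : ℝ, 0 < r ∧ 0 ≤ M ∧ ∀ w : ℂ, 0 < w.re → ‖w - γ * I‖ < r →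
      ‖deriv L w - m / (w - γ * I)‖ ≤ M := by
  have hgan : ∀ᶠ w in 𝓝 (γ * I : ℂ), AnalyticAt ℂ g w := hg.eventually_analyticAt
  have hgne : ∀ᶠ w in 𝓝 (γ * I : ℂ), g w ≠ 0 := hg.continuousAt.eventually_ne hg0
  have hq : ContinuousAt (fun w => deriv g w / g w) (γ * I) :=
    hg.deriv.continuousAt.div hg.continuousAt hg0
  have hqb : ∀ᶠ w in 𝓝 (γ * I : ℂ), ‖deriv g w / g w‖ < ‖deriv g (γ * I) / g (γ * I)‖ + 1 :=
    hq.norm.eventually_lt continuousAt_const (by simp)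
  have hall := (hG.eventually_nhds).and (hgan.and (hgne.and hqb))
  obtain ⟨r, hr, hball⟩ := Metric.eventually_nhds_iff_ball.mp hall
  refine ⟨r, ‖deriv g (γ * I) / g (γ * I)‖ + 1, hr, by positivity, ?_⟩
  intro w hw hwr
  obtain ⟨h1, h2, h3, h4⟩ := hball w (by rw [mem_ball, dist_eq_norm]; exact hwr)
  have hne : w - γ * I ≠ 0 := by
    intro h
    have h5 : w.re = 0 := by
      have := congrArg Complex.re (sub_eq_zero.mp h)
      simpa using this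
    linarith
  have hGw : G w = (w - γ * I) ^ m * g w := h1.self_of_nhds
  have hderiv : deriv G w = (m : ℂ) * (w - γ * I) ^ (m - 1) * g w + (w - γ * I) ^ m * deriv g w := by
    have h5 : HasDerivAt (fun w : ℂ => (w - γ * I) ^ m) ((m : ℂ) * (w - γ * I) ^ (m - 1)) w := by
      have h6 := ((hasDerivAt_id w).sub_const ((γ : ℂ) * I)).fun_pow m
      simpa using h6
    have h6 := h5.mul h2.differentiableAt.hasDerivAt
    have h7 : HasDerivAt G ((m : ℂ) * (w - γ * I) ^ (m - 1) * g w + (w - γ * I) ^ m * deriv g w) w := by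
      refine h6.congr_of_eventuallyEq ?_
      filter_upwards [h1] with z hz
      rw [hz]
      rfl
    exact h7.deriv
  have hkey : deriv L w - m / (w - γ * I) = deriv g w / g w := by
    rw [deriv_branch hF hL hw, hderiv, hGw]
    rcases Nat.eq_zero_or_pos m with hm | hm
    · subst hm
      simp
    · obtain ⟨j, rfl⟩ : ∃ j, m = j + 1 := ⟨m - 1, by omega⟩
      have h5 : (w - γ * I) ^ (j + 1) ≠ 0 := pow_ne_zero _ hne
      have h6 : (w - γ * I) ^ j ≠ 0 := pow_ne_zero _ hne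
      rw [Nat.add_sub_cancel, pow_succ]
      field_simp
      ring
  rw [hkey]
  exact h4.le

/-- pointwise comparison of squares -/
theorem sq_compare (u q : ℂ) {s M : ℝ} (hs : 0 < s) (hq : ‖q‖ ≤ M) :
    |‖u + q‖ ^ 2 - ‖u‖ ^ 2| ≤ s * ‖u‖ ^ 2 + (M ^ 2 / s + M ^ 2) := by
  have hM : 0 ≤ M := (norm_nonneg q).trans hq
  have h1 : ‖u + q‖ ≤ ‖u‖ + ‖q‖ := norm_add_le _ _
  have h2 : ‖u‖ ≤ ‖u + q‖ + ‖q‖ := by
    have := norm_sub_le (u + q) q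
    simpa using this
  have h3 : |‖u + q‖ - ‖u‖| ≤ ‖q‖ := by
    rw [abs_le]
    constructor <;> linarith
  have h4 : |‖u + q‖ ^ 2 - ‖u‖ ^ 2| = |‖u + q‖ - ‖u‖| * (‖u + q‖ + ‖u‖) := by
    rw [show ‖u + q‖ ^ 2 - ‖u‖ ^ 2 = (‖u + q‖ - ‖u‖) * (‖u + q‖ + ‖u‖) by ring, abs_mul,
      abs_of_nonneg (by positivity : (0 : ℝ) ≤ ‖u + q‖ + ‖u‖)]
  have h5 : |‖u + q‖ ^ 2 - ‖u‖ ^ 2| ≤ M * (2 * ‖u‖ + M) := by
    rw [h4]
    apply mul_le_mul (h3.trans hq) _ (by positivity) hM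
    linarith
  have h6 : 2 * M * ‖u‖ ≤ s * ‖u‖ ^ 2 + M ^ 2 / s := by
    have h7 : 0 ≤ (s * ‖u‖ - M) ^ 2 / s := by positivity
    have h8 : (s * ‖u‖ - M) ^ 2 / s = s * ‖u‖ ^ 2 - 2 * M * ‖u‖ + M ^ 2 / s := by
      field_simp
      ring
    linarith
  nlinarith

theorem window_core (hP : PoissonWindow) (hF : Frame v G A a η B c k) {L : ℂ → ℂ}
    (hL : Branch v G a L) (γ : ℝ) (hγ : γ ≠ 0) (m : ℕ)
    (g : ℂ → ℂ) (hg : AnalyticAt ℂ g (γ * I)) (hg0 : g (γ * I) ≠ 0)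
    (hG : ∀ᶠ w in 𝓝 (γ * I : ℂ), G w = (w - γ * I) ^ m * g w) :
    ∃ ε0 : ℝ, 0 < ε0 ∧ ∀ ε : ℝ, 0 < ε → ε ≤ ε0 →
      Tendsto (fun σ : ℝ => σ * ∫ τ in Icc (γ - ε) (γ + ε),
        ‖deriv L ((σ : ℂ) + (τ : ℂ) * I)‖ ^ 2 * (‖(σ : ℂ) + (τ : ℂ) * I‖ ^ 2)⁻¹) (𝓝[>] 0)
        (𝓝 ((m : ℝ) ^ 2 * (Real.pi / γ ^ 2))) := by
  obtain ⟨r, M, hr, hM, hnear⟩ := deriv_near hF hL γ m g hg hg0 hG
  have hγpos : 0 < |γ| := abs_pos.mpr hγ
  refine ⟨min (r / 2) (|γ| / 2), by positivity, ?_⟩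
  intro ε hε hε0
  have hεr : ε ≤ r / 2 := hε0.trans (min_le_left _ _)
  have hεγ : ε ≤ |γ| / 2 := hε0.trans (min_le_right _ _)
  have hpw := hP γ ε hε (by linarith)
  -- notation
  set Ff : ℝ → ℝ → ℝ := fun σ τ =>
    ‖deriv L ((σ : ℂ) + (τ : ℂ) * I)‖ ^ 2 * (‖(σ : ℂ) + (τ : ℂ) * I‖ ^ 2)⁻¹ with hFf
  set Bf : ℝ → ℝ → ℝ := fun σ τ =>
    (‖(σ : ℂ) + (τ : ℂ) * I - (γ : ℂ) * I‖ ^ 2)⁻¹ * (‖(σ : ℂ) + (τ : ℂ) * I‖ ^ 2)⁻¹ with hBf
  have hopen : IsOpen {w : ℂ | 0 < w.re} := isOpen_lt continuous_const continuous_re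
  have hre : ∀ σ τ : ℝ, ((σ : ℂ) + (τ : ℂ) * I).re = σ := by
    intro σ τ
    simp
  have hline : ∀ σ : ℝ, Continuous (fun τ : ℝ => (σ : ℂ) + (τ : ℂ) * I) := by
    intro σ
    fun_prop
  have hne : ∀ σ τ : ℝ, 0 < σ → ‖(σ : ℂ) + (τ : ℂ) * I‖ ^ 2 ≠ 0 := by
    intro σ τ hσ h
    have h1 : (σ : ℂ) + (τ : ℂ) * I = 0 := by
      rw [← norm_eq_zero]
      exact pow_eq_zero_iff (two_ne_zero) |>.mp h
    have h2 := congrArg Complex.re h1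
    rw [hre] at h2
    simp at h2
    linarith
  have hne2 : ∀ σ τ : ℝ, 0 < σ → ‖(σ : ℂ) + (τ : ℂ) * I - (γ : ℂ) * I‖ ^ 2 ≠ 0 := by
    intro σ τ hσ h
    have h1 : (σ : ℂ) + (τ : ℂ) * I - (γ : ℂ) * I = 0 := by
      rw [← norm_eq_zero]
      exact pow_eq_zero_iff (two_ne_zero) |>.mp h
    have h2 := congrArg Complex.re h1
    simp at h2
    linarith
  have hFc : ∀ σ : ℝ, 0 < σ → Continuous (Ff σ) := by
    intro σ hσ
    have h1 : Continuous (fun τ : ℝ => deriv L ((σ : ℂ) + (τ : ℂ) * I)) := by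
      rw [continuous_iff_continuousAt]
      intro τ
      have h2 : AnalyticAt ℂ L ((σ : ℂ) + (τ : ℂ) * I) :=
        hL.diff.analyticAt (hopen.mem_nhds (by
          show 0 < ((σ : ℂ) + (τ : ℂ) * I).re
          rw [hre]
          exact hσ))
      have h3 : ContinuousAt (deriv L) ((σ : ℂ) + (τ : ℂ) * I) := h2.deriv.continuousAt
      exact ContinuousAt.comp (f := fun τ : ℝ => (σ : ℂ) + (τ : ℂ) * I) h3 (hline σ).continuousAt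
    exact (h1.norm.pow 2).mul (((hline σ).norm.pow 2).inv₀ (fun τ => hne σ τ hσ))
  have hBc : ∀ σ : ℝ, 0 < σ → Continuous (Bf σ) := by
    intro σ hσ
    exact ((((hline σ).sub continuous_const).norm.pow 2).inv₀ (fun τ => hne2 σ τ hσ)).mul
      (((hline σ).norm.pow 2).inv₀ (fun τ => hne σ τ hσ))
  -- bound of `1 / ‖w‖ ^ 2` in the window
  have hinv : ∀ σ τ : ℝ, τ ∈ Icc (γ - ε) (γ + ε) →
      (‖(σ : ℂ) + (τ : ℂ) * I‖ ^ 2)⁻¹ ≤ 4 / γ ^ 2 := by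
    intro σ τ hτ
    have h1 : |γ| / 2 ≤ |τ| := by
      have h2 : |τ - γ| ≤ ε := by
        rw [abs_le]
        constructor <;> linarith [hτ.1, hτ.2]
      have h3 : |γ| ≤ |τ| + |τ - γ| := by
        have := abs_sub_abs_le_abs_sub γ τ
        rw [abs_sub_comm γ τ] at this
        linarith
      linarith
    have h2 : |τ| ≤ ‖(σ : ℂ) + (τ : ℂ) * I‖ := by
      have h3 := Complex.abs_im_le_norm ((σ : ℂ) + (τ : ℂ) * I)
      simpa using h3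
    have h3 : γ ^ 2 / 4 ≤ ‖(σ : ℂ) + (τ : ℂ) * I‖ ^ 2 := by
      have h4 : |γ| / 2 ≤ ‖(σ : ℂ) + (τ : ℂ) * I‖ := h1.trans h2
      have h5 : (|γ| / 2) ^ 2 ≤ ‖(σ : ℂ) + (τ : ℂ) * I‖ ^ 2 := pow_le_pow_left₀ (by positivity) h4 2
      rw [div_pow, sq_abs] at h5
      norm_num at h5
      linarith
    have h4 : 0 < γ ^ 2 / 4 := by positivity
    calc (‖(σ : ℂ) + (τ : ℂ) * I‖ ^ 2)⁻¹ ≤ (γ ^ 2 / 4)⁻¹ := inv_anti₀ h4 h3
      _ = 4 / γ ^ 2 := by rw [inv_div]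
  -- pointwise comparison
  have hpt : ∀ σ τ : ℝ, 0 < σ → σ < r / 2 → τ ∈ Icc (γ - ε) (γ + ε) →
      |Ff σ τ - (m : ℝ) ^ 2 * Bf σ τ| ≤
        √σ * ((m : ℝ) ^ 2 * Bf σ τ) + (M ^ 2 / √σ + M ^ 2) * (4 / γ ^ 2) := by
    intro σ τ hσ hσr hτ
    have hw : 0 < ((σ : ℂ) + (τ : ℂ) * I).re := by rw [hre]; exact hσ
    have hdist : ‖(σ : ℂ) + (τ : ℂ) * I - γ * I‖ < r := by
      have h1 : (σ : ℂ) + (τ : ℂ) * I - γ * I = (σ : ℂ) + ((τ - γ : ℝ) : ℂ) * I := by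
        push_cast
        ring
      rw [h1]
      have h2 : |τ - γ| ≤ ε := by
        rw [abs_le]
        constructor <;> linarith [hτ.1, hτ.2]
      calc ‖(σ : ℂ) + ((τ - γ : ℝ) : ℂ) * I‖ ≤ ‖(σ : ℂ)‖ + ‖((τ - γ : ℝ) : ℂ) * I‖ := norm_add_le _ _
        _ = |σ| + |τ - γ| := by
          rw [norm_mul, norm_I, mul_one, norm_real, norm_real, Real.norm_eq_abs, Real.norm_eq_abs]
        _ < r := by
          rw [abs_of_pos hσ]
          linarith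
    have hn := hnear _ hw hdist
    have hs : 0 < √σ := Real.sqrt_pos.mpr hσ
    have hcmp := sq_compare ((m : ℂ) / ((σ : ℂ) + (τ : ℂ) * I - γ * I))
      (deriv L ((σ : ℂ) + (τ : ℂ) * I) - m / ((σ : ℂ) + (τ : ℂ) * I - γ * I)) hs hn
    rw [add_sub_cancel] at hcmp
    have hu : ‖(m : ℂ) / ((σ : ℂ) + (τ : ℂ) * I - γ * I)‖ ^ 2 =
        (m : ℝ) ^ 2 * (‖(σ : ℂ) + (τ : ℂ) * I - (γ : ℂ) * I‖ ^ 2)⁻¹ := by
      rw [norm_div, norm_natCast, div_pow, div_eq_mul_inv]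
    rw [hu] at hcmp
    have hi0 : 0 ≤ (‖(σ : ℂ) + (τ : ℂ) * I‖ ^ 2)⁻¹ := by positivity
    have hi := hinv σ τ hτ
    have e1 : Ff σ τ - (m : ℝ) ^ 2 * Bf σ τ =
        (‖deriv L ((σ : ℂ) + (τ : ℂ) * I)‖ ^ 2 -
          (m : ℝ) ^ 2 * (‖(σ : ℂ) + (τ : ℂ) * I - (γ : ℂ) * I‖ ^ 2)⁻¹) *
          (‖(σ : ℂ) + (τ : ℂ) * I‖ ^ 2)⁻¹ := by
      simp only [hFf, hBf]
      ring
    rw [e1, abs_mul, abs_of_nonneg hi0]
    have h1 := mul_le_mul_of_nonneg_right hcmp hi0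
    have h2 : (M ^ 2 / √σ + M ^ 2) * (‖(σ : ℂ) + (τ : ℂ) * I‖ ^ 2)⁻¹ ≤
        (M ^ 2 / √σ + M ^ 2) * (4 / γ ^ 2) := mul_le_mul_of_nonneg_left hi (by positivity)
    refine h1.trans ?_
    rw [add_mul]
    have e2 : √σ * ((m : ℝ) ^ 2 * (‖(σ : ℂ) + (τ : ℂ) * I - (γ : ℂ) * I‖ ^ 2)⁻¹) *
        (‖(σ : ℂ) + (τ : ℂ) * I‖ ^ 2)⁻¹ = √σ * ((m : ℝ) ^ 2 * Bf σ τ) := by
      simp only [hBf]
      ring
    rw [e2]
    linarith
  -- integrated comparison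
  have hint : ∀ σ : ℝ, 0 < σ → σ < r / 2 →
      |σ * (∫ τ in Icc (γ - ε) (γ + ε), Ff σ τ) -
        (m : ℝ) ^ 2 * (σ * ∫ τ in Icc (γ - ε) (γ + ε), Bf σ τ)| ≤
        √σ * ((m : ℝ) ^ 2 * (σ * ∫ τ in Icc (γ - ε) (γ + ε), Bf σ τ)) +
          (√σ + σ) * (M ^ 2 * (4 / γ ^ 2) * (2 * ε)) := by
    intro σ hσ hσr
    have hs : 0 < √σ := Real.sqrt_pos.mpr hσ
    have hFi : IntegrableOn (Ff σ) (Icc (γ - ε) (γ + ε)) :=
      (hFc σ hσ).continuousOn.integrableOn_compact isCompact_Icc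
    have hBi : IntegrableOn (Bf σ) (Icc (γ - ε) (γ + ε)) :=
      (hBc σ hσ).continuousOn.integrableOn_compact isCompact_Icc
    have hci : IntegrableOn (fun _ : ℝ => (M ^ 2 / √σ + M ^ 2) * (4 / γ ^ 2)) (Icc (γ - ε) (γ + ε)) :=
      integrableOn_const (by rw [Real.volume_Icc]; exact ENNReal.ofReal_ne_top)
    have e1 : σ * (∫ τ in Icc (γ - ε) (γ + ε), Ff σ τ) -
        (m : ℝ) ^ 2 * (σ * ∫ τ in Icc (γ - ε) (γ + ε), Bf σ τ) =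
        σ * ∫ τ in Icc (γ - ε) (γ + ε), (Ff σ τ - (m : ℝ) ^ 2 * Bf σ τ) := by
      rw [integral_sub hFi (hBi.const_mul _), integral_const_mul]
      ring
    rw [e1, abs_mul, abs_of_pos hσ]
    have h1 : |∫ τ in Icc (γ - ε) (γ + ε), (Ff σ τ - (m : ℝ) ^ 2 * Bf σ τ)| ≤
        ∫ τ in Icc (γ - ε) (γ + ε),
          (√σ * ((m : ℝ) ^ 2 * Bf σ τ) + (M ^ 2 / √σ + M ^ 2) * (4 / γ ^ 2)) := by
      refine (abs_integral_le_integral_abs).trans ?_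
      apply setIntegral_mono_on
      · exact (hFi.sub (hBi.const_mul _)).abs
      · exact ((hBi.const_mul _).const_mul _).add hci
      · exact measurableSet_Icc
      · intro τ hτ
        exact hpt σ τ hσ hσr hτ
    have h2 : ∫ τ in Icc (γ - ε) (γ + ε),
          (√σ * ((m : ℝ) ^ 2 * Bf σ τ) + (M ^ 2 / √σ + M ^ 2) * (4 / γ ^ 2)) =
        √σ * ((m : ℝ) ^ 2 * ∫ τ in Icc (γ - ε) (γ + ε), Bf σ τ) +
          2 * ε * ((M ^ 2 / √σ + M ^ 2) * (4 / γ ^ 2)) := by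
      rw [integral_add ((hBi.const_mul _).const_mul _) hci, integral_const_mul, integral_const_mul,
        setIntegral_const]
      have h3 : (volume : Measure ℝ).real (Icc (γ - ε) (γ + ε)) = 2 * ε := by
        rw [Measure.real, Real.volume_Icc, ENNReal.toReal_ofReal (by linarith)]
        ring
      rw [h3, smul_eq_mul]
    rw [h2] at h1
    have h3 := mul_le_mul_of_nonneg_left h1 hσ.le
    refine h3.trans (le_of_eq ?_)
    have h4 : σ / √σ = √σ := Real.div_sqrt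
    have h5 : σ * (M ^ 2 / √σ) = √σ * M ^ 2 := by
      calc σ * (M ^ 2 / √σ) = σ / √σ * M ^ 2 := by ring
        _ = √σ * M ^ 2 := by rw [h4]
    calc σ * (√σ * ((m : ℝ) ^ 2 * ∫ τ in Icc (γ - ε) (γ + ε), Bf σ τ) +
          2 * ε * ((M ^ 2 / √σ + M ^ 2) * (4 / γ ^ 2)))
        = √σ * ((m : ℝ) ^ 2 * (σ * ∫ τ in Icc (γ - ε) (γ + ε), Bf σ τ)) +
          (σ * (M ^ 2 / √σ) + σ * M ^ 2) * (4 / γ ^ 2 * (2 * ε)) := by ring
      _ = _ := by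
          rw [h5]
          ring
  -- limits
  have hm : Tendsto (fun σ : ℝ => (m : ℝ) ^ 2 * (σ * ∫ τ in Icc (γ - ε) (γ + ε), Bf σ τ)) (𝓝[>] 0)
      (𝓝 ((m : ℝ) ^ 2 * (Real.pi / γ ^ 2))) := hpw.const_mul _
  have hsq : Tendsto (fun σ : ℝ => √σ) (𝓝[>] 0) (𝓝 0) := by
    have h1 : Tendsto (fun σ : ℝ => √σ) (𝓝 0) (𝓝 (√0)) := Real.continuous_sqrt.tendsto 0
    rw [Real.sqrt_zero] at h1
    exact h1.mono_left nhdsWithin_le_nhds
  have hid : Tendsto (fun σ : ℝ => σ) (𝓝[>] (0 : ℝ)) (𝓝 0) :=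
    tendsto_id.mono_left nhdsWithin_le_nhds
  have herr : Tendsto (fun σ : ℝ =>
      √σ * ((m : ℝ) ^ 2 * (σ * ∫ τ in Icc (γ - ε) (γ + ε), Bf σ τ)) +
          (√σ + σ) * (M ^ 2 * (4 / γ ^ 2) * (2 * ε))) (𝓝[>] 0) (𝓝 0) := by
    have h1 := (hsq.mul hm).add ((hsq.add hid).mul_const (M ^ 2 * (4 / γ ^ 2) * (2 * ε)))
    simpa using h1
  have hdiff : Tendsto (fun σ : ℝ => σ * (∫ τ in Icc (γ - ε) (γ + ε), Ff σ τ) -
        (m : ℝ) ^ 2 * (σ * ∫ τ in Icc (γ - ε) (γ + ε), Bf σ τ)) (𝓝[>] 0) (𝓝 0) := by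
    apply squeeze_zero_norm' _ herr
    have h1 : ∀ᶠ σ : ℝ in 𝓝[>] 0, σ < r / 2 := by
      apply nhdsWithin_le_nhds
      exact Iio_mem_nhds (by positivity)
    filter_upwards [self_mem_nhdsWithin, h1] with σ hσ hσr
    rw [Real.norm_eq_abs]
    exact hint σ hσ hσr
  have hfin := hdiff.add hm
  rw [zero_add] at hfin
  refine hfin.congr ?_
  intro σ
  ring

end Pool.Agent.Helper13.CR
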